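import Mathlib
set_option autoImplicit false
universe u

namespace Pool.Agent.TH883.J1051
open Polynomial

theorem mem_of_der (p : ℕ) [Fact p.Prime] (k K : Type u) [Field k] [Field K] [Algebra k K]
    [CharP K p] (N : IntermediateField k K) (d : Derivation k K K) (hd : ∀ x ∈ N, d x = 0) (t : K)
    (ht : t ^ p ∈ N) (hdt : d t ≠ 0) (y : K)
    (hy : y ∈ IntermediateField.adjoin k (insert t (N : Set K))) (hdy : d y = 0) : y ∈ N := by
  have hp : p.Prime := Fact.out
  have hNp : CharP N p := (algebraMap N K).charP (algebraMap N K).injective p
  -- `d` is linear over `N`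
  let d' : Derivation N K K :=
    { toFun := d
      map_add' := map_add d
      map_smul' := by
        intro a x
        show d ((a : K) * x) = (a : K) * d x
        rw [Derivation.leibniz, hd a a.2, smul_zero, add_zero, smul_eq_mul]
      map_one_eq_zero' := Derivation.map_one_eq_zero d
      leibniz' := Derivation.leibniz d }
  have hd' : ∀ x, d' x = d x := fun _ => rfl
  have haev : ∀ P : N[X], d (aeval t P) = aeval t (derivative P) * d t := by
    intro P
    have h1 := Derivation.map_aeval (D := d') P t
    rw [hd', hd', smul_eq_mul] at h1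
    exact h1
  -- nonconstant polynomials of small degree have nonzero derivative
  have hder : ∀ P : N[X], P.natDegree < p → derivative P = 0 → P.natDegree = 0 := by
    intro P hP h0
    by_contra hne
    have h1 := congrArg (fun Q => Q.coeff (P.natDegree - 1)) h0
    simp only [coeff_derivative, coeff_zero] at h1
    rw [Nat.sub_add_cancel (Nat.one_le_iff_ne_zero.2 hne)] at h1
    rcases mul_eq_zero.1 h1 with h2 | h2
    · have h3 : P = 0 := leadingCoeff_eq_zero.1 h2
      rw [h3, natDegree_zero] at hne
      exact hne rfl
    · have h3 : ((P.natDegree : ℕ) : N) = 0 := by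
        have h4 : P.natDegree = (P.natDegree - 1) + 1 :=
          (Nat.sub_add_cancel (Nat.one_le_iff_ne_zero.2 hne)).symm
        rw [h4, Nat.cast_add, Nat.cast_one]
        exact h2
      rw [CharP.cast_eq_zero_iff N p] at h3
      exact absurd (Nat.le_of_dvd (Nat.pos_of_ne_zero hne) h3) (not_le.2 hP)
  -- linear independence
  have hli : ∀ n : ℕ, ∀ P : N[X], P.natDegree = n → P.natDegree < p → aeval t P = 0 → P = 0 := by
    intro n
    induction n using Nat.strong_induction_on with
    | _ n ih =>
      intro P hn hP h0
      have h1 : aeval t (derivative P) = 0 := by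
        have h2 := haev P
        rw [h0, map_zero] at h2
        rcases mul_eq_zero.1 h2.symm with h3 | h3
        · exact h3
        · exact absurd h3 hdt
      have h2 : P.natDegree = 0 := by
        by_contra hne
        have h3 : (derivative P).natDegree < P.natDegree := natDegree_derivative_lt hne
        exact hne (hder P hP (ih _ (by omega) _ rfl (by omega) h1))
      rw [eq_C_of_natDegree_eq_zero h2, aeval_C] at h0
      rw [eq_C_of_natDegree_eq_zero h2, (map_eq_zero _).1 h0, C_0]
  -- `y` is a polynomial in `t` of small degree
  set M : N[X] := X ^ p - C ⟨t ^ p, ht⟩ with hM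
  have hMm : M.Monic := monic_X_pow_sub_C _ hp.ne_zero
  have hMt : aeval t M = 0 := by
    rw [hM, map_sub, map_pow, aeval_X, aeval_C]
    exact sub_self _
  have hint : IsIntegral N t := ⟨M, hMm, hMt⟩
  have hy2 : y ∈ (IntermediateField.adjoin N {t} : IntermediateField N K) := by
    have h1 : IntermediateField.adjoin k (insert t (N : Set K)) ≤
        (IntermediateField.adjoin N {t}).restrictScalars k := by
      rw [IntermediateField.adjoin_le_iff]
      rintro x (rfl | hx)
      · exact IntermediateField.mem_adjoin_simple_self N x
      · exact (IntermediateField.adjoin N {t}).algebraMap_mem ⟨x, hx⟩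
    exact h1 hy
  have hy3 : y ∈ Algebra.adjoin N {t} := by
    rw [← IntermediateField.adjoin_simple_toSubalgebra_of_isAlgebraic hint.isAlgebraic]
    exact hy2
  rw [Algebra.adjoin_singleton_eq_range_aeval] at hy3
  obtain ⟨P, hP⟩ := hy3
  have hP' : aeval t P = y := hP
  have hR : aeval t (P %ₘ M) = y := by
    rw [aeval_modByMonic_eq_self_of_root hMt, hP']
  have hdeg : (P %ₘ M).natDegree < p := by
    have h1 : M.natDegree = p := natDegree_X_pow_sub_C
    have h2 := natDegree_modByMonic_lt P hMm (by
      intro h3
      rw [h3, natDegree_one] at h1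
      exact hp.ne_zero h1.symm)
    rwa [h1] at h2
  have h1 : aeval t (derivative (P %ₘ M)) = 0 := by
    have h2 := haev (P %ₘ M)
    rw [hR, hdy] at h2
    rcases mul_eq_zero.1 h2.symm with h3 | h3
    · exact h3
    · exact absurd h3 hdt
  have h2 : derivative (P %ₘ M) = 0 := by
    refine hli _ _ rfl ?_ h1
    exact lt_of_le_of_lt (natDegree_derivative_le _) (by omega)
  have h3 := hder _ hdeg h2
  rw [eq_C_of_natDegree_eq_zero h3, aeval_C] at hR
  rw [← hR]
  exact ((P %ₘ M).coeff 0).2

end Pool.Agent.TH883.J1051
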