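import Mathlib
set_option autoImplicit false
universe u

namespace Pool.Agent.TH883.J1050
open Polynomial

theorem exists_der_one (p : ℕ) [Fact p.Prime] (k E : Type u) [Field k] [CharP k p] [Field E]
    [Algebra k E] (D : Derivation k E E) (hD : ∀ x, D^[p] x = 0) (h0 : ∃ x, D x ≠ 0) :
    ∃ t : E, D t = 1 := by
  classical
  obtain ⟨x, hx⟩ := h0
  have hex : ∃ n, D^[n] x = 0 := ⟨p, hD x⟩
  set n := Nat.find hex with hn
  have hn0 : D^[n] x = 0 := Nat.find_spec hex
  have hmin : ∀ m < n, D^[m] x ≠ 0 := fun m hm => Nat.find_min hex hm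
  have hn2 : 2 ≤ n := by
    by_contra hlt
    have h1 : n = 0 ∨ n = 1 := by omega
    rcases h1 with h1 | h1
    · rw [h1, Function.iterate_zero, id] at hn0
      rw [hn0, map_zero] at hx
      exact hx rfl
    · rw [h1, Function.iterate_one] at hn0
      exact hx hn0
  obtain ⟨m, hm⟩ : ∃ m, n = m + 2 := ⟨n - 2, by omega⟩
  set a := D^[m] x with ha
  have hb : D a = D^[m + 1] x := by rw [Function.iterate_succ_apply']
  have hb0 : D a ≠ 0 := by
    rw [hb]
    exact hmin _ (by omega)
  have hbb : D (D a) = 0 := by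
    rw [hb, ← Function.iterate_succ_apply' (f := D)]
    rw [hm] at hn0
    exact hn0
  refine ⟨a / D a, ?_⟩
  rw [Derivation.leibniz_div_const _ _ _ hbb, smul_eq_mul, inv_mul_cancel₀ hb0]

theorem exists_eig {k V : Type*} [Field k] [AddCommGroup V] [Module k V] (T : Module.End k V)
    (s : Multiset k) : ∀ y : V, y ≠ 0 → aeval T ((s.map fun a => X - C a).prod) y = 0 →
    ∃ l ∈ s, ∃ z : V, z ≠ 0 ∧ T z = l • z := by
  induction s using Multiset.induction_on with
  | empty =>
    intro y hy h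
    rw [Multiset.map_zero, Multiset.prod_zero, map_one, Module.End.one_apply] at h
    exact absurd h hy
  | cons a s ih =>
    intro y hy h
    rw [Multiset.map_cons, Multiset.prod_cons, map_mul, Module.End.mul_apply] at h
    by_cases hz : aeval T ((s.map fun a => X - C a).prod) y = 0
    · obtain ⟨l, hl, z, hz, hT⟩ := ih y hy hz
      exact ⟨l, Multiset.mem_cons_of_mem hl, z, hz, hT⟩
    · refine ⟨a, Multiset.mem_cons_self a s, _, hz, ?_⟩
      rw [map_sub, aeval_X, aeval_C, LinearMap.sub_apply, sub_eq_zero] at h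
      rw [h]
      rfl

theorem exists_der_self (p : ℕ) [Fact p.Prime] (k E : Type u) [Field k] [CharP k p] [Field E]
    [Algebra k E] (D : Derivation k E E) (hD : ∀ x, D^[p] x = D x) (h0 : ∃ x, D x ≠ 0) :
    ∃ t : E, t ≠ 0 ∧ D t = t := by
  classical
  obtain ⟨x, hx⟩ := h0
  have hp : p.Prime := Fact.out
  set φ : ZMod p →+* k := ZMod.castHom (dvd_refl p) k with hφ
  have hsp : (X ^ p - X : (ZMod p)[X]) = ∏ a : ZMod p, (X - C a) := by
    have h1 := (GaloisField.splits_zmod_X_pow_sub_X p).eq_prod_roots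
    have h2 : (X ^ p - X : (ZMod p)[X]).leadingCoeff = 1 := by
      have h3 : (X ^ p - X : (ZMod p)[X]).Monic := by
        apply monic_X_pow_sub
        rw [degree_X]
        exact_mod_cast hp.one_lt
      exact h3
    have h3 : (X ^ p - X : (ZMod p)[X]).roots = Finset.univ.val := by
      have h4 := FiniteField.roots_X_pow_card_sub_X (ZMod p)
      rw [ZMod.card] at h4
      exact h4
    rw [h2, h3, map_one, one_mul] at h1
    exact h1
  have hk : (X ^ p - X : k[X]) = X * ∏ a ∈ Finset.univ.erase (0 : ZMod p), (X - C (φ a)) := by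
    have h1 := congrArg (Polynomial.map φ) hsp
    rw [Polynomial.map_sub, Polynomial.map_pow, map_X, Polynomial.map_prod,
      ← Finset.mul_prod_erase Finset.univ _ (Finset.mem_univ (0 : ZMod p))] at h1
    rw [h1]
    congr 1
    · rw [Polynomial.map_sub, map_X, map_C, map_zero, C_0, sub_zero]
    · refine Finset.prod_congr rfl fun a _ => ?_
      rw [Polynomial.map_sub, map_X, map_C]
  set T : Module.End k E := (D : E →ₗ[k] E) with hT
  have hTp : ∀ n : ℕ, ∀ y, (T ^ n) y = D^[n] y := by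
    intro n y
    rw [Module.End.pow_apply]
    rfl
  have h1 : aeval T (∏ a ∈ Finset.univ.erase (0 : ZMod p), (X - C (φ a))) (D x) = 0 := by
    have h2 : aeval T (X ^ p - X : k[X]) x = 0 := by
      rw [map_sub, map_pow, aeval_X, LinearMap.sub_apply, hTp, hD]
      exact sub_self _
    rw [hk, mul_comm, map_mul, aeval_X, Module.End.mul_apply] at h2
    exact h2
  have h3 : (∏ a ∈ Finset.univ.erase (0 : ZMod p), (X - C (φ a)) : k[X]) =
      ((((Finset.univ.erase (0 : ZMod p)).val.map φ).map fun a => X - C a)).prod := by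
    rw [Multiset.map_map]
    rfl
  rw [h3] at h1
  obtain ⟨l, hl, z, hz, hTz⟩ := exists_eig T _ (D x) hx h1
  obtain ⟨a, ha, rfl⟩ := Multiset.mem_map.1 hl
  have ha0 : a ≠ 0 := (Finset.mem_erase.1 ha).1
  refine ⟨z ^ (a⁻¹).val, pow_ne_zero _ hz, ?_⟩
  have hDz : D z = φ a • z := hTz
  have hm0 : (a⁻¹).val ≠ 0 := by
    rw [Ne, ZMod.val_eq_zero]
    exact inv_ne_zero ha0
  rw [Derivation.leibniz_pow, hDz]
  obtain ⟨m, hm⟩ : ∃ m, (a⁻¹).val = m + 1 := ⟨(a⁻¹).val - 1, by omega⟩
  have h4 : ((m + 1 : ℕ) : k) * φ a = 1 := by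
    have h5 : ((m + 1 : ℕ) : ZMod p) * a = 1 := by
      rw [← hm, ZMod.natCast_zmod_val, inv_mul_cancel₀ ha0]
    have h6 := congrArg φ h5
    rw [map_mul, map_natCast, map_one] at h6
    exact h6
  rw [hm, Nat.add_sub_cancel, smul_eq_mul, mul_smul_comm, ← pow_succ, ← Nat.cast_smul_eq_nsmul k,
    smul_smul, h4, one_smul]

end Pool.Agent.TH883.J1050
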